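import Pool.Agent.Q233.DP.Weyl
import Pool.Agent.Q233.DP.Uniq

/-!
# MP_178ab7_mp: no bound states of weak `δ'`-interactions on open arcs

For every regular injective plane arc `Λ` of class `C²` there is `ω_* > 0` such that the spectrum of
the `δ'`-interaction Hamiltonian on `Λ` with coupling `ω` is `[0,∞)` for all `ω ≤ ω_*`.

The definitions are in `Pool.Agent.Q233.DP.Defs`:
* `IsArc γ`: `γ` is `C²`, injective on `[0,1]`, and `γ' ≠ 0` on `[0,1]`; `Λ = γ([0,1])`;
* `HasJump γ u G₁ G₂ j`: `u ∈ L²(ℝ²)` is in `H¹(ℝ² ∖ Λ)` with gradient `(G₁,G₂)` and jump `j` (Gauss-Green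
  formula for all `C¹` test functions of compact support on the plane);
* `form γ ω`: the form `∫ ∇u · conj ∇v - ω ∫_Λ [u] conj [v] ds`;
* `InOp γ ω u f`: `u` is in the domain of the operator associated with the form, which maps `u` to `f`;
* `spec γ ω`: the spectrum (complement of the resolvent set) of this operator.
-/

set_option autoImplicit false
open Pool.Agent.Q233.DP

namespace Pool.Agent.Results.MP_178ab7_mp.OpenArcNoBoundStates

/-- For every regular injective `C²` arc: the gradient and the jump are determined by the function, the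
relation `InOp` is the graph of an operator, and there is `ω_* > 0` such that the spectrum of this operator
is the half-line `[0,∞)` for all couplings `ω ≤ ω_*`. -/
theorem result (γ : ℝ → ℝ × ℝ) (hγ : IsArc γ) :
    (∀ (u G₁ G₂ G₁' G₂' : E) (j j' : J), HasJump γ u G₁ G₂ j → HasJump γ u G₁' G₂' j' →
      G₁ = G₁' ∧ G₂ = G₂' ∧ j = j') ∧
    (∀ (ω : ℝ) (u f f' : E), InOp γ ω u f → InOp γ ω u f' → f = f') ∧
    (∃ ωs : ℝ, 0 < ωs ∧ ∀ ω : ℝ, ω ≤ ωs → spec γ ω = {z : ℂ | 0 ≤ z.re ∧ z.im = 0}) := by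
  refine ⟨fun u G₁ G₂ G₁' G₂' j j' h h' => hasJump_unique hγ h h', fun ω u f f' h h' => inOp_unique hγ h h', ?_⟩
  obtain ⟨a₀, ha₀, hr⟩ := resolvent_main hγ
  refine ⟨a₀, ha₀, fun ω hω => ?_⟩
  ext z
  constructor
  · intro hz
    by_contra hcon
    exact hz (hr ω hω z hcon)
  · intro hz
    exact weyl hγ ω hz

end Pool.Agent.Results.MP_178ab7_mp.OpenArcNoBoundStates
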